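import Mathlib
import Pool.Agent.Lib.MP_6db618_an.Entire3

set_option autoImplicit false

namespace Pool.Agent.Variants.MP_6db618_an.FinitelyManyZeros

/-- Blumenthal's conjecture for entire functions with finitely many zeros, one of which is
transcendental and of finite order. -/
theorem result (f g : ℂ → ℂ) (hf : Differentiable ℂ f) (hg : Differentiable ℂ g)
    (zf : {z | f z = 0}.Finite) (zg : {z | g z = 0}.Finite)
    (hord : ∃ ρ R : ℝ, ∀ z : ℂ, R ≤ ‖z‖ → ‖f z‖ ≤ Real.exp (‖z‖ ^ ρ))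
    (hpoly : ¬ ∃ p : Polynomial ℂ, ∀ z : ℂ, f z = p.eval z)
    (hM : ∀ r : ℝ, 0 < r →
      sSup ((fun z => ‖f z‖) '' Metric.sphere (0 : ℂ) r) =
        sSup ((fun z => ‖g z‖) '' Metric.sphere (0 : ℂ) r)) :
    ∃ ε η : ℂ, ‖ε‖ = 1 ∧ ‖η‖ = 1 ∧
      ((∀ z : ℂ, g z = ε * f (η * z)) ∨
        (∀ z : ℂ, g z = ε * starRingEnd ℂ (f (η * starRingEnd ℂ z)))) :=
  Pool.Agent.Lib.MP_6db618_an.equivE_finite hf hg zf zg hord hpoly hM

end Pool.Agent.Variants.MP_6db618_an.FinitelyManyZeros
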